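import Pool.Agent.H11.GQ.Main
import Pool.Agent.H81.NF.Struct
import Pool.Agent.H82.CO.Final

set_option autoImplicit false

/-!
PROJECT FD (MP_bf82d2_ag, note 6161), module Up.
The parts of the finiteness proof which precede the character table package, for an arbitrary
bound `D` of `quadInv`.
-/

namespace Pool.Agent.H92.FD

open Finset Module Pool.Agent.H82.CO
open Pool.Agent.H11.GQ (rk nuK gap exists_max rk_of_mem rt_le_rk beta)

section

variable {G : Type} [Group G] [Fintype G] {N : ℕ}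

/-- At least six branch points. -/
theorem large_N (s : Fin N → G) (hs : ∀ i, s i ≠ 1) (hN : 6 ≤ N) (D : ℝ) (hd : (quadInv s).re ≤ D) :
    3 / 32 * (Nat.card G : ℝ) ≤ 2 * D ∧ 3 / 4 * ((N : ℝ) - 4) ≤ 2 * D := by
  obtain ⟨n, P, k, hn, hP, hk, hn2, hPn, h⟩ := ineq_P s hs hN
  have hN' : (6 : ℝ) ≤ N := by exact_mod_cast hN
  have hk0 : 0 ≤ k := by linarith
  have hA := (arith_n hn2 hk0 hPn).trans h
  have hyk : k + 2 = N - 4 := by linarith
  rw [hyk] at hA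
  obtain ⟨y, hy⟩ : ∃ y : ℝ, y = N - 4 := ⟨_, rfl⟩
  have hN3 : (N : ℝ) - 3 = y + 1 := by linarith
  rw [hN3, ← hy] at hA
  have hy2 : 2 ≤ y := by linarith
  have h0 : 0 < n := by linarith
  have h1 : n * (3 * y / 4 + n * (y ^ 2 / 16 - 5 / 32)) ≤ n * (2 * (quadInv s).re) := by nlinarith
  have h2 := le_of_mul_le_mul_left h1 h0
  have h3 : 3 / 32 ≤ y ^ 2 / 16 - 5 / 32 := by nlinarith
  have h4 : n * (3 / 32) ≤ n * (y ^ 2 / 16 - 5 / 32) := mul_le_mul_of_nonneg_left h3 h0.le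
  rw [← hn, ← hy]
  constructor <;> nlinarith

/-- A power of some `s i` has many square roots. -/
theorem many_roots_D (s : Fin N → G) (hs : ∀ i, s i ≠ 1) (hN : N = 4 ∨ N = 5)
    (hT : N = 4 → 5 / 1296 * (Nat.card G : ℝ) - 1 ≤ (quadInv s + extInv s).re) (D : ℝ) (hD : 0 ≤ D)
    (hd : (quadInv s).re ≤ D) (hn : 1040 * D ≤ Nat.card G) :
    ∃ i, ∃ k : ℕ, s i ^ k ≠ 1 ∧ 1 / 1040 * (Nat.card G : ℝ) ≤ rt (s i ^ k) := by
  by_contra hne
  push Not at hne
  have h4N : 4 ≤ N := by omega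
  obtain ⟨r, hr⟩ : ∃ r : ℝ, r = 1 / 1040 * (Nat.card G : ℝ) := ⟨_, rfl⟩
  have h0 := hne ⟨0, by omega⟩ 1 (by rw [pow_one]; exact hs _)
  rw [← hr] at hne h0
  have hr0 : 0 < r := lt_of_le_of_lt (Pool.Agent.H82.SQ.rt_nonneg _) h0
  have h1 := Pool.Agent.H82.SQ.rho_lt s hs (by omega) hr0 hne
  have hn0 : (0 : ℝ) ≤ Nat.card G := Nat.cast_nonneg _
  rcases hN with h4 | h5
  · have h2 := Pool.Agent.H82.SQ.two_quadInv_ge s hs h4N (hT h4)
    have hN4 : (N : ℝ) = 4 := by rw [h4]; norm_num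
    rw [hN4] at h1
    linarith
  · subst h5
    have h2 := Pool.Agent.H82.SQ.two_quadInv_ge s hs h4N (E := (Nat.card G : ℝ) / 16) (by
      have := tensor_five s hs
      linarith)
    push_cast at h1
    linarith

end

/-- The group has an abelian normal subgroup of bounded index which is inverted by an element. -/
theorem structure_D (D : ℕ) : ∃ B : ℕ, ∀ (G : Type) [Group G] [Fintype G] (N : ℕ) (_hN : N = 4 ∨ N = 5)
    (s : Fin N → G) (_hs : ∀ i, s i ≠ 1) (_hna : ∃ a b : G, a * b ≠ b * a)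
    (_hprod : (List.ofFn s).prod = 1) (_hgen : Subgroup.closure (Set.range s) = ⊤)
    (_hg : 1 < genus s) (_hd : (quadInv s).re ≤ D),
    ∃ A : Subgroup G, A.Normal ∧ (∀ a ∈ A, ∀ b ∈ A, a * b = b * a) ∧ A.index ≤ B ∧
      ∃ x : G, ∀ a ∈ A, x * a * x⁻¹ = a⁻¹ := by
  obtain ⟨B4, h4⟩ := Pool.Agent.H81.NF.neumann_fg 4 (1 / 1040 ^ 2) (by positivity)
  obtain ⟨B5, h5⟩ := Pool.Agent.H81.NF.neumann_fg 5 (1 / 1040 ^ 2) (by positivity)
  refine ⟨max (1040 * D) (1040 * max B4 B5).factorial, fun G _ _ N hN s hs hna hprod hgen hg hd => ?_⟩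
  by_cases hsmall : Nat.card G ≤ 1040 * D
  · refine ⟨⊥, inferInstance, ?_, ?_, 1, ?_⟩
    · intro a ha b hb
      rw [Subgroup.mem_bot.1 ha, Subgroup.mem_bot.1 hb]
    · rw [Subgroup.index_bot]
      exact hsmall.trans (le_max_left _ _)
    · intro a ha
      rw [Subgroup.mem_bot.1 ha]; simp
  push Not at hsmall
  have hn : (1040 * D : ℝ) < Nat.card G := by exact_mod_cast hsmall
  have hT : N = 4 → 5 / 1296 * (Nat.card G : ℝ) - 1 ≤ (quadInv s + extInv s).re := by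
    intro hN4
    subst hN4
    exact Pool.Agent.H54.SQ.tensor_ge s hs hna hprod hgen hg
  obtain ⟨i, k, -, hroot'⟩ := many_roots_D s hs hN hT D (Nat.cast_nonneg _) hd hn.le
  have hcp := Pool.Agent.H81.NF.commProb_ge _ hroot'
  obtain ⟨A₀, hA1, hA2, hA3⟩ : ∃ A : Subgroup G, A.Normal ∧
      (∀ a ∈ A, ∀ b ∈ A, a * b = b * a) ∧ A.index ≤ max B4 B5 := by
    rcases hN with h | h
    · subst h
      obtain ⟨A, h1, h2, h3⟩ := h4 G s hgen hcp
      exact ⟨A, h1, h2, h3.trans (le_max_left _ _)⟩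
    · subst h
      obtain ⟨A, h1, h2, h3⟩ := h5 G s hgen hcp
      exact ⟨A, h1, h2, h3.trans (le_max_right _ _)⟩
  rw [Pool.Agent.H82.SQ.rt_eq_card] at hroot'
  obtain ⟨A, hB1, hB2, hB3, x, -, hx⟩ := Pool.Agent.H81.NF.exists_inverted A₀ hA2 hA3
    (by norm_num : (0 : ℝ) < 1 / 1040) hroot' (m := 1040 * max B4 B5) (by
      push_cast
      rw [div_le_iff₀ (by norm_num)]
      linarith [show (0 : ℝ) ≤ max (B4 : ℝ) B5 from le_max_of_le_left (Nat.cast_nonneg _)])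
  exact ⟨A, hB1, fun a ha b hb => hA2 a (hB2 ha) b (hB2 hb), hB3.trans (le_max_right _ _), x, hx⟩

/-- There is a normal subgroup of bounded order modulo which the genus is at most one. -/
theorem genus_one_D (D : ℕ) : ∃ B : ℕ, ∀ (G : Type) [Group G] [Fintype G] (N : ℕ) (_hN : N = 4 ∨ N = 5)
    (s : Fin N → G) (_hs : ∀ i, s i ≠ 1) (_hna : ∃ a b : G, a * b ≠ b * a)
    (_hprod : (List.ofFn s).prod = 1) (_hgen : Subgroup.closure (Set.range s) = ⊤)
    (_hg : 1 < genus s) (_hd : (quadInv s).re ≤ D),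
    ∃ (K : Subgroup G) (_ : K.Normal), Nat.card K ≤ B ∧ nuK s K ≤ 2 := by
  obtain ⟨e, he⟩ : ∃ e : ℕ, e = 500000 := ⟨_, rfl⟩
  have he0 : 0 < e := by omega
  have heR : (e : ℝ) = 500000 := by rw [he]; norm_num
  obtain ⟨b, hb⟩ : ∃ b : ℕ, b = beta e ^ e := ⟨_, rfl⟩
  refine ⟨1000000 * (D + 1) * (b + 1), fun G _ _ N hN s hs hna hprod hgen hg hd => ?_⟩
  by_cases hsmall : Nat.card G ≤ 1000000 * (D + 1) * (b + 1)
  · refine ⟨⊤, inferInstance, ?_, ?_⟩
    · rw [Subgroup.card_top]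
      exact hsmall
    · have h1 : nuK s (⊤ : Subgroup G) = 0 := by
        refine sum_eq_zero fun i _ => ?_
        have h2 : (QuotientGroup.mk (s i) : G ⧸ (⊤ : Subgroup G)) = 1 :=
          (QuotientGroup.eq_one_iff (s i)).2 (Subgroup.mem_top _)
        rw [h2, orderOf_one]
        norm_num
      rw [h1]
      norm_num
  push Not at hsmall
  have hn : (1000000 * (D + 1) * (b + 1) : ℝ) < Nat.card G := by exact_mod_cast hsmall
  have hb0 : (0 : ℝ) ≤ b := Nat.cast_nonneg b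
  have hD0 : (0 : ℝ) ≤ D := Nat.cast_nonneg D
  have hDb : (0 : ℝ) ≤ D * b := mul_nonneg hD0 hb0
  have hn1 : (1040 * D : ℝ) ≤ Nat.card G := by nlinarith
  have hn2 : (1 : ℝ) < Nat.card G := by nlinarith
  have hNR : (N : ℝ) ≤ 5 := by
    have : N ≤ 5 := by omega
    exact_mod_cast this
  have hT : N = 4 → 5 / 1296 * (Nat.card G : ℝ) - 1 ≤ (quadInv s + extInv s).re := by
    intro hN4
    subst hN4
    exact Pool.Agent.H54.SQ.tensor_ge s hs hna hprod hgen hg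
  obtain ⟨i, k, -, hroot'⟩ := many_roots_D s hs hN hT D hD0 hd hn1
  obtain ⟨c, hc⟩ : ∃ c, c = s i ^ k := ⟨_, rfl⟩
  rw [← hc] at hroot'
  obtain ⟨K, hK, hcard, hDD⟩ := exists_max (G := G) e he0
  have hcK : c ∈ K := by
    by_contra hcK
    have h1 := hDD c hcK
    have h2 := rt_le_rk K c
    rw [heR] at h1
    linarith
  have hrk : 1 / 1040 * (Nat.card G : ℝ) ≤ rk K 1 := by
    rw [← rk_of_mem K hcK]
    exact hroot'.trans (rt_le_rk K c)
  refine ⟨K, hK, ?_, ?_⟩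
  · rw [← hb] at hcard
    have : b ≤ 1000000 * (D + 1) * (b + 1) := by nlinarith
    omega
  by_contra hcon
  push Not at hcon
  have hgap : 2 + 1 / 42 ≤ nuK s K :=
    gap (by omega) (fun i => orderOf (QuotientGroup.mk (s i) : G ⧸ K)) (fun i => orderOf_pos _) hcon
  have hkey := Pool.Agent.H11.GQ.key s hprod hgen K (1 / 500000) (by norm_num) (by
    intro c hc
    have h1 := hDD c hc
    rw [heR] at h1
    linarith)
  rw [← hb] at hcard
  have hcR : (Nat.card K : ℝ) ≤ b := by exact_mod_cast hcard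
  obtain ⟨n, hn'⟩ : ∃ n : ℝ, n = Nat.card G := ⟨_, rfl⟩
  obtain ⟨κ, hκ⟩ : ∃ κ : ℝ, κ = Nat.card K := ⟨_, rfl⟩
  obtain ⟨r, hr⟩ : ∃ r : ℝ, r = rk K 1 := ⟨_, rfl⟩
  obtain ⟨v, hv⟩ : ∃ v : ℝ, v = nuK s K := ⟨_, rfl⟩
  obtain ⟨d, hd'⟩ : ∃ d : ℝ, d = (quadInv s).re := ⟨_, rfl⟩
  rw [← hn', ← hκ, ← hr, ← hv, ← hd'] at hkey
  rw [← hn'] at hn hn1 hn2
  rw [← hn', ← hr] at hrk
  rw [← hv] at hgap
  rw [← hd'] at hd
  rw [← hκ] at hcR
  have hκ0 : 0 ≤ κ := by rw [hκ]; exact Nat.cast_nonneg _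
  have hn0 : 0 < n := by linarith
  have h1 : n / 43680 ≤ r * (v - 2) := by
    have h2 : 1 / 1040 * n * (1 / 42) ≤ r * (v - 2) :=
      mul_le_mul hrk (by linarith) (by norm_num) (by linarith)
    linarith
  have h2 : 1 / 500000 * n * N ≤ n / 100000 := by
    have := mul_le_mul_of_nonneg_left hNR (by linarith : (0 : ℝ) ≤ 1 / 500000 * n)
    linarith
  have h3 : n / 100000 ≤ r * (v - 2) - 1 / 500000 * n * N := by linarith
  have h4 : n / 2 * (n / 100000) ≤ n / 2 * (r * (v - 2) - 1 / 500000 * n * N) :=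
    mul_le_mul_of_nonneg_left h3 (by linarith)
  have h6 : 2 * (n * κ) * d ≤ 2 * (n * κ) * D := mul_le_mul_of_nonneg_left hd (by positivity)
  have h7 : n * (n / 200000) ≤ n * (2 * κ * D) := by nlinarith
  have h8 := le_of_mul_le_mul_left h7 hn0
  have h9 : κ * D ≤ b * D := mul_le_mul_of_nonneg_right hcR hD0
  nlinarith

end Pool.Agent.H92.FD
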